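import Pool.Agent.L5helper32.GP.Defs

/-!
# For the residues of the true integers the model recursion is the recursion of the problem
-/

set_option autoImplicit false

open Finset MeasureTheory ProbabilityTheory

namespace Pool.Agent.L5helper32.GP

theorem gcd_pow_sub_congr {x a b : ℕ} (p : ℕ) (ha : 0 < a) (hb : 0 < b) (hab : a ≡ b [MOD x]) :
    Nat.gcd x (a ^ p - 1) = Nat.gcd x (b ^ p - 1) := by
  have h1 : 1 ≤ a ^ p := Nat.one_le_pow _ _ ha
  have h2 : 1 ≤ b ^ p := Nat.one_le_pow _ _ hb
  have h3 : a ^ p - 1 ≡ b ^ p - 1 [MOD x] := by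
    refine Nat.ModEq.add_right_cancel' 1 ?_
    rw [Nat.sub_add_cancel h1, Nat.sub_add_cancel h2]
    exact hab.pow p
  rw [Nat.gcd_rec x (a ^ p - 1), Nat.gcd_rec x (b ^ p - 1), h3]

theorem seq_true (p : ℕ) (a : ℕ → ℕ) (h1 : a 1 = 1)
    (h : ∀ n, 2 ≤ n → (a n : ℤ) = |(a (n - 1) : ℤ) - Nat.gcd (a (n - 1)) (n ^ p - 1)|) :
    ∀ n, 1 ≤ n → a n = seq p (fun c m => c % m) n := by
  intro n hn
  induction n with
  | zero => omega
  | succ n ih =>
    cases n with
    | zero => simpa [seq] using h1
    | succ n =>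
      have ih' := ih (by omega)
      have hs := h (n + 1 + 1) (by omega)
      rw [show n + 1 + 1 - 1 = n + 1 from rfl, ih'] at hs
      rw [show seq p (fun c m => c % m) (n + 1 + 1) = seq p (fun c m => c % m) (n + 2) from rfl,
        seq]
      set x := seq p (fun c m => c % m) (n + 1) with hx
      by_cases h0 : x = 0
      · rw [if_pos h0]
        rw [h0, Nat.gcd_zero_left] at hs
        have : (a (n + 1 + 1) : ℤ) = (((n + 1 + 1) ^ p - 1 : ℕ) : ℤ) := by
          rw [hs, Nat.cast_zero, zero_sub, abs_neg, Nat.abs_cast]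
        exact_mod_cast this
      · rw [if_neg h0]
        have hxp : 0 < x := Nat.pos_of_ne_zero h0
        have hg : Nat.gcd x ((n + 1 + 1) ^ p - 1) = Nat.gcd x (((x + (n + 1)) % x + 1) ^ p - 1) := by
          refine gcd_pow_sub_congr p (by omega) (by omega) ?_
          refine Nat.ModEq.add_right 1 ?_
          refine Nat.ModEq.trans ?_ (Nat.mod_modEq _ _).symm
          exact (Nat.ModEq.symm (by simp [Nat.ModEq]))
        rw [hg] at hs
        have hle : Nat.gcd x (((x + (n + 1)) % x + 1) ^ p - 1) ≤ x := Nat.gcd_le_left _ hxp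
        have : (a (n + 1 + 1) : ℤ) =
            ((x - Nat.gcd x (((x + (n + 1)) % x + 1) ^ p - 1) : ℕ) : ℤ) := by
          rw [hs, Nat.cast_sub hle, abs_of_nonneg]
          have := (Int.ofNat_le.mpr hle)
          push_cast at this ⊢
          linarith
        exact_mod_cast this

end Pool.Agent.L5helper32.GP
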